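import Mathlib
import Pool.Agent.MP_634f99_al.H46.Main

/-! An identity basis of `RS n`. -/

namespace Pool.Agent.MP_634f99_al.H81

open Pool.Agent.MP_634f99_al.H46

theorem PL_of_QL {S : Type*} [Semigroup S] {m : ℕ} (h : QL m S) : PL S := by
  intro s t t'
  have a : s * t ∈ Subsemigroup.closure ({s * t, s * t'} : Set S) :=
    Subsemigroup.subset_closure (Or.inl rfl)
  have b : s * t' ∈ Subsemigroup.closure ({s * t, s * t'} : Set S) :=
    Subsemigroup.subset_closure (Or.inr rfl)
  have c : ∀ k, ∃ r ∈ Subsemigroup.closure ({s * t, s * t'} : Set S),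
      sp (s * t * s * t') k = s * t * r := fun k => by
    induction k with
    | zero => exact ⟨_, b, by simp only [sp_zero, mul_assoc]⟩
    | succ k ih =>
      obtain ⟨r, hr, e⟩ := ih
      exact ⟨_, mul_mem hr (mul_mem a b), by rw [sp_succ, e]; simp only [mul_assoc]⟩
  obtain ⟨r, hr, e⟩ := c m
  refine ⟨_, mul_mem hr (mul_mem b a), _, a, ?_⟩
  have := h s t t'
  rw [e] at this
  simpa only [mul_assoc] using this

/-- The identities `x ^ 2 = x ^ (n + 2)`, `x y x = (x y) ^ (n + 1) x`,
`(x y x w) ^ n x w x y x = x w x y x` and its dual define `RS n`. -/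
theorem identity_basis {n : ℕ} (hn : 1 ≤ n) :
    RS n = Mod {eA n, eC n, eL (n - 1), eR (n - 1)} := by
  ext S
  constructor
  · rintro hS e (rfl | rfl | rfl | rfl)
    · exact RS_A dvd_rfl S hS
    · exact RS_C dvd_rfl hn S hS
    · exact RS_L dvd_rfl hn S hS
    · exact RS_R dvd_rfl hn S hS
  · intro hS
    exact mem_RS_of hn ((sat_eA S n).1 (hS _ (by simp))) ((sat_eC S n).1 (hS _ (by simp)))
      (PL_of_QL ((sat_eL S (n - 1)).1 (hS _ (by simp))))
      (PL_of_QL (QL_op ((sat_eR S (n - 1)).1 (hS _ (by simp)))))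

end Pool.Agent.MP_634f99_al.H81
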